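import Pool.Agent.Run7.h401.JQ.Num
import Pool.Agent.Run7.h401.MQ.Mk
import Pool.Agent.Run7.h401.MQ.Top

/-!
# The rank conjecture for the quadratic twists of `X_0(49)` over multiquadratic fields, for an exact
# proportion of the twists

`S` is any finite set of squarefree numbers with all prime factors `≡ 1 mod 4`, `F = ℚ(√d : d ∈ S)`,
a totally real field of degree `2 ^ k`, and `E_D` is the quadratic twist by `D` of
`X_0(49) : y² + x y = x³ - x² - 2 x - 1`. The numbers `D` are squarefree with all prime factors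
`≡ 1 mod 4` and prime to the elements of `S`.

* `F`-good numbers: for each squarefree `m ≥ 1` with `√m ∈ F`, `E_{D m}(ℚ)` is finite and
  `Ш(E_{D m}/ℚ)` has no element of order two. If `D` is `F`-good, then `L(E_D/F, s)` is entire,
  `L(E_D/F, 1) ≠ 0` and `E_D(F)` is finite, so that the order of vanishing and the rank over `F` are
  both zero.
* The proportion of the `F`-good numbers is exactly `c ^ [F : ℚ]`, where
  `c = ∏_{i ≥ 0} (1 - 2^{-(2i+1)}) = 0.4194...`, and there are at least `a X / √(log X)` of them up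
  to `X`, the order of magnitude of the class.

Proof. The matrix over `𝔽₂` of `E_{D m}` (`Pool/Agent/R428/Q0`, `Pool/Agent/R413/SQ`) is symmetric, and
the matrices for two numbers `m, m'` differ by a diagonal matrix, with entries the symbols of `m m'`
modulo the prime factors of `D`, and by some small blocks. For a random symmetric matrix `R` and fixed
symmetric matrices `Δ_e`, all the differences of which have a large rank, the events
`det (R + Δ_e) ≠ 0` are asymptotically independent, by the joint moments of the sizes of the kernels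
(`Run7/h401/JQ/Mom`, `Inv`, `Law`, `Abs`); the equidistribution of the symbols in boxes and the sum
over the boxes are as in `Pool/Agent/R432/JL` (`Run7/h401/JQ/Box`, `Key`, `Tb`, `Fin`). So the events
for the different `m` are asymptotically independent (`law_joint` below). This joint law over `ℚ` is
also in the starting file `MP_03e5d0_nt/FullClassX49`, with another proof. New is the passage to `F`:
the places of `F`, the L-function of `E_D` over `F` as the product of those of the `E_{D m}` over `ℚ`,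
and the points over `F`; it is in `Run7/h401/MQ`.
-/

set_option autoImplicit false

open NumberField IsDedekindDomain WeierstrassCurve Filter Topology

namespace Pool.Agent.Results.MP_cd906c_nt.TwistsMultiquadraticX49

open Pool.Agent.TH841.NF.D (Sha)
open Pool.Agent.Results.MP_4a9ea6_nt.TwoPartTwistsX49 (twist E TwoPart Adm)

/-- The field `ℚ(√d : d ∈ S)`. -/
noncomputable def field (S : Finset ℕ) : IntermediateField ℚ ℂ :=
  IntermediateField.adjoin ℚ {z : ℂ | ∃ d ∈ S, z ^ 2 = (d : ℂ)}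

theorem gens_finite (S : Finset ℕ) : {z : ℂ | ∃ d ∈ S, z ^ 2 = (d : ℂ)}.Finite := by
  have h : {z : ℂ | ∃ d ∈ S, z ^ 2 = (d : ℂ)} = ⋃ d ∈ S, {z : ℂ | z ^ 2 = (d : ℂ)} := by
    ext z
    simp
  rw [h]
  refine Set.Finite.biUnion S.finite_toSet fun d _ => ?_
  have hp : (Polynomial.X ^ 2 - Polynomial.C (d : ℂ)) ≠ 0 :=
    Polynomial.X_pow_sub_C_ne_zero (by norm_num) _
  refine (Polynomial.finite_setOfPred_isRoot hp).subset fun z hz => ?_
  have hz' : z ^ 2 = (d : ℂ) := hz
  show Polynomial.IsRoot _ z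
  simp [Polynomial.IsRoot, hz']

instance finDim (S : Finset ℕ) : FiniteDimensional ℚ (field S) := by
  have hf : Finite {z : ℂ | ∃ d ∈ S, z ^ 2 = (d : ℂ)} := gens_finite S
  refine IntermediateField.finiteDimensional_adjoin (S := {z : ℂ | ∃ d ∈ S, z ^ 2 = (d : ℂ)}) ?_
  rintro z ⟨d, -, hz⟩
  refine ⟨Polynomial.X ^ 2 - Polynomial.C (d : ℚ), Polynomial.monic_X_pow_sub_C _ (by norm_num), ?_⟩
  rw [← Polynomial.aeval_def]
  simp [hz]

instance numField (S : Finset ℕ) : NumberField (field S) where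
  to_charZero := inferInstance
  to_finiteDimensional := finDim S

/-- `D` is squarefree, its prime factors are `≡ 1 mod 4`, and it is prime to the elements of `S`. -/
def Family (S : Finset ℕ) (D : ℕ) : Prop :=
  (Squarefree D ∧ ∀ p ∈ D.primeFactors, p % 4 = 1) ∧ ∀ d ∈ S, Nat.Coprime D d

/-- For each squarefree `m` whose square roots are in `F`, `E_{D m}(ℚ)` is finite and `Ш(E_{D m}/ℚ)`
has no element of order two. -/
def Good (S : Finset ℕ) (D : ℕ) : Prop :=
  ∀ m : ℕ, Squarefree m → (∃ z ∈ field S, z ^ 2 = (m : ℂ)) →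
    Finite (E (D * m)).toAffine.Point ∧ ∀ x : Sha (E (D * m)), 2 • x = 0 → x = 0

/-- The curve `E_D` over `F`. -/
noncomputable abbrev EF (S : Finset ℕ) (D : ℕ) : WeierstrassCurve (field S) :=
  (twist D).map (Int.castRingHom (field S))

open Classical in
/-- `L(E_D/F, s)` has an entire continuation `Λ`, whose order of vanishing at `s = 1` is the rank of
`E_D(F)`; moreover `Λ 1 ≠ 0` and `E_D(F)` is finite, so that both are zero. -/
def RankFormula (S : Finset ℕ) (D : ℕ) : Prop :=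
  ∃ Λ : ℂ → ℂ, Differentiable ℂ Λ ∧ (∀ s : ℂ, 2 < s.re → Λ s = (EF S D).LSeries s) ∧
    analyticOrderAt Λ 1 = (Module.finrank ℤ (EF S D).toAffine.Point : ℕ∞) ∧
    Λ 1 ≠ 0 ∧ Finite (EF S D).toAffine.Point

open Classical in
/-- the number of the `D ≤ X` of the class with the property `Q` -/
noncomputable def num (S : Finset ℕ) (Q : ℕ → Prop) (X : ℕ) : ℕ :=
  ((Finset.Icc 1 X).filter fun D => Family S D ∧ Q D).card

/-- the constant `0.4194...` -/
noncomputable def cc : ℝ := ∏' i : ℕ, (1 - (1 / 2 : ℝ) ^ (2 * i + 1))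

section proof

open Run7.h401.Fl Run7.h401.JQ
open Pool.Agent.Results.MP_92892c_nt.FullClassTwoPartX49 (two_sel two_gd)

/-- the primes -/
noncomputable def MM (S : Finset ℕ) : Finset ℕ := S.biUnion Nat.primeFactors

theorem MM_pr {S : Finset ℕ} (hS : ∀ d ∈ S, Squarefree d ∧ ∀ p ∈ d.primeFactors, p % 4 = 1) :
    ∀ q ∈ MM S, q.Prime ∧ q % 4 = 1 := by
  intro l hl
  unfold MM at hl
  rw [Finset.mem_biUnion] at hl
  obtain ⟨d, hd, hl⟩ := hl
  exact ⟨Nat.prime_of_mem_primeFactors hl, (hS d hd).2 l hl⟩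

theorem fam_iff {S : Finset ℕ} (hS : ∀ d ∈ S, Squarefree d ∧ ∀ p ∈ d.primeFactors, p % 4 = 1)
    (D : ℕ) : Family S D ↔ Adm D ∧ Disjoint D.primeFactors (MM S) := by
  unfold Family
  refine and_congr_right fun hD => ?_
  unfold MM
  rw [Finset.disjoint_biUnion_right]
  refine forall_congr' fun d => forall_congr' fun hd => ?_
  exact (Nat.disjoint_primeFactors hD.1.ne_zero (hS d hd).1.ne_zero).symm

theorem num_cnt {S : Finset ℕ} (hS : ∀ d ∈ S, Squarefree d ∧ ∀ p ∈ d.primeFactors, p % 4 = 1)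
    {Q R : ℕ → Prop} (h : ∀ D, Family S D → (Q D ↔ R D)) (X : ℕ) :
    num S Q X = cnt (MM S) R X := by
  classical
  unfold num cnt
  refine congrArg Finset.card (Finset.ext fun D => ?_)
  rw [Finset.mem_filter, Finset.mem_filter]
  refine and_congr_right fun _ => ?_
  rw [← fam_iff hS]
  exact and_congr_right fun hF => h D hF

theorem gen1 (S : Finset ℕ) : ∀ d ∈ S, ∃ z : field S, z ^ 2 = (d : field S) := by
  intro d hd
  obtain ⟨z, hz⟩ := IsAlgClosed.exists_pow_nat_eq (d : ℂ) (n := 2) (by norm_num)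
  refine ⟨⟨z, IntermediateField.subset_adjoin ℚ _ ⟨d, hd, hz⟩⟩, ?_⟩
  apply Subtype.ext
  push_cast
  exact hz

theorem gen2 (S : Finset ℕ) (K : Subfield (field S))
    (hK : ∀ d ∈ S, ∀ z : field S, z ^ 2 = (d : field S) → z ∈ K) : K = ⊤ := by
  have hle : field S ≤ (K.map (algebraMap (field S) ℂ)).toIntermediateField (K := ℚ)
      (fun x => by
        have : algebraMap ℚ ℂ x = ((x : ℚ) : ℂ) := rfl
        rw [this]
        exact SubfieldClass.ratCast_mem _ x) := by
    unfold field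
    rw [IntermediateField.adjoin_le_iff]
    rintro z ⟨d, hd, hz⟩
    have hzF : z ∈ field S := IntermediateField.subset_adjoin ℚ _ ⟨d, hd, hz⟩
    refine ⟨⟨z, hzF⟩, hK d hd ⟨z, hzF⟩ ?_, rfl⟩
    apply Subtype.ext
    push_cast
    exact hz
  rw [eq_top_iff]
  rintro x -
  obtain ⟨y, hy, hyx⟩ := hle x.2
  have : y = x := Subtype.ext hyx
  rw [← this]
  exact hy

theorem sqrt_iff (S : Finset ℕ) (m : ℕ) :
    (∃ z ∈ field S, z ^ 2 = (m : ℂ)) ↔ ∃ z : field S, z ^ 2 = (m : field S) := by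
  constructor
  · rintro ⟨z, hz, h⟩
    refine ⟨⟨z, hz⟩, ?_⟩
    apply Subtype.ext
    push_cast
    exact h
  · rintro ⟨z, h⟩
    refine ⟨z, z.2, ?_⟩
    have := congrArg (algebraMap (field S) ℂ) h
    rw [map_pow, map_natCast] at this
    exact this

theorem mulAdm {D m : ℕ} (hD : Adm D) (hm : Adm m) (h : Disjoint D.primeFactors m.primeFactors) :
    Adm (D * m) ∧ (D * m).primeFactors = D.primeFactors ∪ m.primeFactors := by
  have h1 := ad_mul hD (T := m.primeFactors)
    (fun l hl => ⟨Nat.prime_of_mem_primeFactors hl, hm.2 l hl⟩) h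
  rwa [Nat.prod_primeFactors_of_squarefree hm.1] at h1

/-- the good numbers and the matrices -/
theorem good_iff {S : Finset ℕ} (hS : ∀ d ∈ S, Squarefree d ∧ ∀ p ∈ d.primeFactors, p % 4 = 1)
    {r : Finset ℕ → field S} (h : MQ (field S) (HF (field S) S) r) {D : ℕ} (hD : Family S D) :
    (Good S D ↔ ∀ T ∈ HF (field S) S, TwoPart (D * ∏ l ∈ T, l)) ∧
    (Good S D ↔ ∀ T ∈ HF (field S) S,
      Pool.Agent.R413.SQ.Gd Pool.Agent.Y698.SG.n4 (D.primeFactors ∪ T)) := by
  have hD' := (fam_iff hS D).1 hD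
  have hdis : ∀ T ∈ HF (field S) S, Disjoint D.primeFactors T := by
    intro T hT
    rw [mem_HF] at hT
    exact hD'.2.mono_right hT.1
  have h1 : Good S D ↔ ∀ T ∈ HF (field S) S, TwoPart (D * ∏ l ∈ T, l) := by
    constructor
    · intro hg T hT
      obtain ⟨h2, h3⟩ := ad_mul hD'.1 (h.pr T hT) (hdis T hT)
      rw [two_sel h2]
      have hT' := hT
      rw [mem_HF] at hT'
      have hsq : Squarefree (∏ l ∈ T, l) := h2.1.squarefree_of_dvd (dvd_mul_left _ _)
      exact hg _ hsq ((sqrt_iff S _).2 hT'.2)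
    · intro hg m hm hz
      obtain ⟨z, hz⟩ := (sqrt_iff S m).1 hz
      have hT := h.sqrt_mem hm hz
      have h2 := hg _ hT
      obtain ⟨h3, -⟩ := ad_mul hD'.1 (h.pr _ hT) (hdis _ hT)
      rw [two_sel h3, Nat.prod_primeFactors_of_squarefree hm] at h2
      exact h2
  refine ⟨h1, h1.trans ?_⟩
  refine forall_congr' fun T => forall_congr' fun hT => ?_
  obtain ⟨h2, h3⟩ := ad_mul hD'.1 (h.pr T hT) (hdis T hT)
  rw [two_gd h2, h3]

theorem rank_formula {S : Finset ℕ}
    (hS : ∀ d ∈ S, Squarefree d ∧ ∀ p ∈ d.primeFactors, p % 4 = 1) {D : ℕ} (hD : Family S D)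
    (hg : Good S D) : RankFormula S D := by
  classical
  obtain ⟨r, h⟩ := exists_MQ (field S) S hS (gen1 S) (gen2 S)
  have hD' := (fam_iff hS D).1 hD
  have hdis : ∀ T ∈ HF (field S) S, Disjoint D.primeFactors T := by
    intro T hT
    rw [mem_HF] at hT
    exact hD'.2.mono_right hT.1
  obtain ⟨⟨Λ, h1, h2, h3⟩, hfin⟩ := h.top hD'.1 hdis ((good_iff hS h hD).1.1 hg)
  refine ⟨Λ, h1, h2, ?_, h3, hfin⟩
  have h4 : analyticOrderAt Λ 1 = 0 := analyticOrderAt_eq_zero.2 (Or.inr h3)
  have h5 : Module.finrank ℤ (EF S D).toAffine.Point = 0 := by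
    apply Module.finrank_eq_zero_of_rank_eq_zero
    rw [rank_eq_zero_iff]
    intro x
    refine ⟨(Nat.card (EF S D).toAffine.Point : ℤ), ?_, ?_⟩
    · have : 0 < Nat.card (EF S D).toAffine.Point := Nat.card_pos
      exact_mod_cast this.ne'
    · rw [natCast_zsmul]
      exact card_nsmul_eq_zero'
  rw [h4, h5]
  rfl

theorem law_field {S : Finset ℕ}
    (hS : ∀ d ∈ S, Squarefree d ∧ ∀ p ∈ d.primeFactors, p % 4 = 1) :
    Tendsto (fun X : ℕ => (num S (Good S) X : ℝ) / (num S (fun _ => True) X : ℝ)) atTop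
      (𝓝 (cc ^ Module.finrank ℚ (field S))) := by
  obtain ⟨r, h⟩ := exists_MQ (field S) S hS (gen1 S) (gen2 S)
  have h1 := jnum (MM_pr hS) Pool.Agent.Y698.SG.n4 (HF (field S) S) (fun T hT => by
    rw [mem_HF] at hT
    exact hT.1)
  rw [h.finrank_eq]
  have hc : cc = Pool.Agent.Y703.CQ.c2 := rfl
  rw [hc]
  refine h1.congr fun X => ?_
  rw [num_cnt hS (R := fun _ => True) (fun D _ => Iff.rfl),
    num_cnt hS (R := fun D => ∀ T ∈ HF (field S) S,
      Pool.Agent.R413.SQ.Gd Pool.Agent.Y698.SG.n4 (D.primeFactors ∪ T))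
      (fun D hD => (good_iff hS h hD).2)]

theorem cc_bd : 0.4194 < cc ∧ cc < 0.4195 := Pool.Agent.Y948.CQ.t_C2.2.2.2

theorem count_field {S : Finset ℕ}
    (hS : ∀ d ∈ S, Squarefree d ∧ ∀ p ∈ d.primeFactors, p % 4 = 1) :
    ∃ (a : ℝ) (X₀ : ℕ), 0 < a ∧ ∀ X : ℕ, X₀ ≤ X →
      a * X / Real.sqrt (Real.log X) ≤ (num S (Good S) X : ℝ) := by
  obtain ⟨c, hc, h1⟩ := cnt_ge (MM_pr hS)
  have h2 := law_field hS
  have hcc : 0 < cc := by have := cc_bd.1; linarith
  set L := cc ^ Module.finrank ℚ (field S) with hL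
  have hL0 : 0 < L := pow_pos hcc _
  have h3 := h2.eventually (lt_mem_nhds (show L / 2 < L by linarith))
  obtain ⟨X₀, hX₀⟩ := eventually_atTop.1 ((h1.and h3).and (eventually_ge_atTop 3))
  refine ⟨c * (L / 2), X₀, by positivity, fun X hX => ?_⟩
  obtain ⟨⟨h4, h5⟩, h6⟩ := hX₀ X hX
  rw [← num_cnt hS (Q := fun _ => True) (R := fun _ => True) (fun D _ => Iff.rfl)] at h4
  have hlog : 0 < Real.log X := Real.log_pos (by exact_mod_cast (by omega : 1 < X))
  have hX0 : (0 : ℝ) < X := by exact_mod_cast (by omega : 0 < X)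
  have hs : 0 < Real.sqrt (Real.log X) := Real.sqrt_pos.2 hlog
  have h7 : 0 < (num S (fun _ => True) X : ℝ) := lt_of_lt_of_le (by positivity) h4
  rw [lt_div_iff₀ h7] at h5
  calc c * (L / 2) * X / Real.sqrt (Real.log X) =
        L / 2 * (c * X / Real.sqrt (Real.log X)) := by ring
    _ ≤ L / 2 * (num S (fun _ => True) X : ℝ) := mul_le_mul_of_nonneg_left h4 (by positivity)
    _ ≤ _ := h5.le

theorem law_joint {T : Finset ℕ}
    (hT : ∀ m ∈ T, Squarefree m ∧ ∀ p ∈ m.primeFactors, p % 4 = 1) :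
    Tendsto (fun X : ℕ => (num T (fun D => ∀ m ∈ T, TwoPart (D * m)) X : ℝ) /
      (num T (fun _ => True) X : ℝ)) atTop (𝓝 (cc ^ T.card)) := by
  classical
  have hinj : Set.InjOn Nat.primeFactors (T : Set ℕ) := by
    intro m hm n hn hmn
    rw [← Nat.prod_primeFactors_of_squarefree (hT m hm).1,
      ← Nat.prod_primeFactors_of_squarefree (hT n hn).1, hmn]
  have h1 := jnum (MM_pr hT) Pool.Agent.Y698.SG.n4 (T.image Nat.primeFactors) (fun P hP => by
    rw [Finset.mem_image] at hP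
    obtain ⟨m, hm, rfl⟩ := hP
    exact Finset.subset_biUnion_of_mem Nat.primeFactors hm)
  rw [Finset.card_image_of_injOn hinj] at h1
  have hc : cc = Pool.Agent.Y703.CQ.c2 := rfl
  rw [hc]
  refine h1.congr fun X => ?_
  rw [num_cnt hT (R := fun _ => True) (fun D _ => Iff.rfl),
    num_cnt hT (R := fun D => ∀ P ∈ T.image Nat.primeFactors,
      Pool.Agent.R413.SQ.Gd Pool.Agent.Y698.SG.n4 (D.primeFactors ∪ P)) ?_]
  intro D hD
  have hD' := (fam_iff hT D).1 hD
  have key : ∀ m ∈ T, (TwoPart (D * m) ↔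
      Pool.Agent.R413.SQ.Gd Pool.Agent.Y698.SG.n4 (D.primeFactors ∪ m.primeFactors)) := by
    intro m hm
    have hdis : Disjoint D.primeFactors m.primeFactors :=
      hD'.2.mono_right (Finset.subset_biUnion_of_mem Nat.primeFactors hm)
    obtain ⟨h2, h3⟩ := mulAdm hD'.1 (hT m hm) hdis
    rw [two_gd h2, h3]
  constructor
  · intro h P hP
    rw [Finset.mem_image] at hP
    obtain ⟨m, hm, rfl⟩ := hP
    exact (key m hm).1 (h m hm)
  · intro h m hm
    exact (key m hm).2 (h _ (Finset.mem_image_of_mem _ hm))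

end proof

theorem result (S : Finset ℕ)
    (hS : ∀ d ∈ S, Squarefree d ∧ ∀ p ∈ d.primeFactors, p % 4 = 1) :
    (∀ D : ℕ, Family S D → Good S D → RankFormula S D) ∧
    Tendsto (fun X : ℕ => (num S (Good S) X : ℝ) / (num S (fun _ => True) X : ℝ)) atTop
      (𝓝 (cc ^ Module.finrank ℚ (field S))) ∧
    (∃ (a : ℝ) (X₀ : ℕ), 0 < a ∧ ∀ X : ℕ, X₀ ≤ X →
      a * X / Real.sqrt (Real.log X) ≤ (num S (Good S) X : ℝ)) ∧
    0.4194 < cc ∧ cc < 0.4195 :=
  ⟨fun _ hD hg => rank_formula hS hD hg, law_field hS, count_field hS, cc_bd⟩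

end Pool.Agent.Results.MP_cd906c_nt.TwistsMultiquadraticX49
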